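import Pool.Agent.H71.TCZ.H71.FQ.EvC1

/-!
# Project FQ: averaging over `D` and the value on the symbols

`pull ν φ` is the function of tuples defined by a cocycle `φ` of the centralizer of `c` and measures `ν`.

PROOFS. `isPhi_pull`: by `bd_vmap`, `D₀` times the sum of the faces vanishes, `Lam` is torsion free.
`avF_eq`: `exists_homotopy` for the vertex maps `avM D` and `Nat.card (Fin q → D)` times the point masses, `b = id`,
which commute with `lmul z` and `sig q c`; with `H` of it put `Ψ w = μ • linearCombination Φ (H (single w))`.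
`trT_sym`: `trT_gasm` for `avF D Φ`, `trT_cob`, `trT_smul` and `HG.ev_vmap` for `ψ = cj`,
`ν' h = ∑ s, ν (fun t => u * h * s t)`; finally the power of `Nat.card D` is a unit of `B`.
-/

set_option autoImplicit false

open Matrix

universe u v w

namespace Pool.Agent.H71.FQ

open Pool.Agent.H71.FJ (MatEquiv IdemMat K0 K0.mk K0.lift K0.lift_mk K0.hom_ext K0.map K0.tr_mk)

section

variable {G : Type v} [Group G] {n q : ℕ}

theorem tens_mapDomain {X : Type*} {Y : Type*} {Z : Type*} (A : X → Y →₀ ℤ) (f : Y → Z) (k : ℕ)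
    (x : Fin (k + 1) → X) :
    tens (fun y => (A y).mapDomain f) k x = push ℤ f k (tens A k x) := by
  rw [← vmap_single, ← push_vmap, vmap_single]

theorem tens_congr {X : Type*} {Y : Type*} {A : X → Y →₀ ℤ} {X' : Type*} {A' : X' → Y →₀ ℤ} {k : ℕ}
    {x : Fin (k + 1) → X} {x' : Fin (k + 1) → X'} (h : ∀ j, A (x j) = A' (x' j)) :
    tens A k x = tens A' k x' := by
  rw [tens_eq_tenf, tens_eq_tenf]
  congr 1
  exact funext h

theorem mass_eq_lc {Y : Type*} (a : Y →₀ ℤ) :
    mass a = Finsupp.linearCombination ℤ (fun _ => (1 : ℤ)) a := by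
  rw [mass, Finsupp.linearCombination_apply]
  exact Finsupp.sum_congr fun _ _ => (mul_one _).symm

/-- a cocycle (in the sense of the faces) vanishes on boundaries -/
theorem lc_bd_zero {X : Type*} {M : Type*} [AddCommGroup M] {m : ℕ} {φ : (Fin (m + 1) → X) → M}
    (h : ∀ x : Fin (m + 2) → X, ∑ i : Fin (m + 2), (-1 : ℤ) ^ (i : ℕ) •
      φ (fun j => x (i.succAbove j)) = 0) (c : Cx ℤ X (m + 1)) :
    Finsupp.linearCombination ℤ φ (bd ℤ X m c) = 0 := by
  rw [lc_bd]
  have h1 : (fun x : Fin (m + 2) → X => ∑ i : Fin (m + 2), (-1 : ℤ) ^ (i : ℕ) •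
      φ (fun j => x (i.succAbove j))) = fun _ => (0 : M) := funext h
  rw [h1]
  simp [Finsupp.linearCombination_apply]

/-- the alternating sum over the faces as a value at a boundary -/
theorem lc_bd_single {X : Type*} {M : Type*} [AddCommGroup M] {m : ℕ} (φ : (Fin (m + 1) → X) → M)
    (x : Fin (m + 2) → X) :
    Finsupp.linearCombination ℤ φ (bd ℤ X m (Finsupp.single x 1)) =
      ∑ i : Fin (m + 2), (-1 : ℤ) ^ (i : ℕ) • φ (fun j => x (i.succAbove j)) := by
  rw [lc_bd, Finsupp.linearCombination_single, one_smul]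

/-- the function of tuples defined by a cocycle and measures -/
noncomputable def pull {Λ : Type u} [CommRing Λ] {Z : Type v} (ν : (Fin q → G) → Z →₀ ℤ)
    (φ : (Fin (n + 2) → Z) → Λ) (v : Fin (n + 2) → Fin q → G) : Λ :=
  Finsupp.linearCombination ℤ φ (tens ν (n + 1) v)

theorem IsPhi.map {Λ : Type u} [CommRing Λ] {B : Type w} [CommRing B] (f : Λ →+* B) {c : G}
    {Φ : (Fin (n + 2) → Fin q → G) → Λ} (h : IsPhi c Φ) : IsPhi c fun v => f (Φ v) where
  inv g hg v := congrArg f (h.inv g hg v)
  rot v := congrArg f (h.rot v)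
  coc v := by
    rw [← map_zero f, ← h.coc v, map_sum]
    refine Finset.sum_congr rfl fun i _ => ?_
    rw [map_zsmul]

/-- the sum over the right multiplications by elements of `D` -/
noncomputable def avM (D : Subgroup G) [Fintype D] (v : Fin q → G) : (Fin q → G) →₀ ℤ :=
  ∑ s : Fin q → D, Finsupp.single (fun t => v t * s t) 1

theorem mass_avM (D : Subgroup G) [Fintype D] (v : Fin q → G) :
    mass (avM D v) = (Fintype.card (Fin q → D) : ℤ) := by
  rw [mass_eq_lc, avM, map_sum, Finset.sum_congr rfl (g := fun _ => (1 : ℤ)), Finset.sum_const,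
    Finset.card_univ, nsmul_eq_mul, mul_one]
  intro s _
  rw [Finsupp.linearCombination_single, one_smul]

theorem avM_mapDomain_lmul (D : Subgroup G) [Fintype D] (g : G) (v : Fin q → G) :
    (avM D v).mapDomain (lmul g) = avM D (lmul g v) := by
  rw [avM, avM, Finsupp.mapDomain_finsetSum]
  refine Finset.sum_congr rfl fun s _ => ?_
  rw [Finsupp.mapDomain_single]
  congr 1
  funext t
  exact (mul_assoc _ _ _).symm

/-- the cyclic rotation of `Fin q` -/
def rotE (q : ℕ) (t : Fin q) : Fin q := if h : (t : ℕ) + 1 < q then ⟨(t : ℕ) + 1, h⟩ else ⟨0, t.pos⟩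

theorem rotE_injective (q : ℕ) : Function.Injective (rotE q) := by
  intro a b h
  unfold rotE at h
  split_ifs at h with h1 h2 h2
  · have := Fin.mk.inj_iff.1 h
    exact Fin.ext (by omega)
  · have := Fin.mk.inj_iff.1 h
    omega
  · have := Fin.mk.inj_iff.1 h
    omega
  · exact Fin.ext (by omega)

theorem sig_mul (c : G) (v s : Fin q → G) (t : Fin q) :
    sig q c (fun t => v t * s t) t = sig q c v t * s (rotE q t) := by
  unfold sig rotE
  split_ifs with h
  · rfl
  · exact (mul_assoc _ _ _).symm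

theorem avM_mapDomain_sig (D : Subgroup G) [Fintype D] (c : G) (v : Fin q → G) :
    (avM D v).mapDomain (sig q c) = avM D (sig q c v) := by
  rw [avM, avM, Finsupp.mapDomain_finsetSum]
  have hb : Function.Bijective (rotE q) :=
    (Fintype.bijective_iff_injective_and_card _).2 ⟨rotE_injective q, rfl⟩
  refine Fintype.sum_equiv (Equiv.arrowCongr (Equiv.ofBijective _ hb).symm (Equiv.refl D)) _ _ ?_
  intro s
  rw [Finsupp.mapDomain_single]
  congr 1
  funext t
  exact sig_mul c v (fun t => (s t : G)) t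

theorem avM_mul (D : Subgroup G) [Fintype D] (v s : Fin q → G) (hs : ∀ t, s t ∈ D) :
    avM D (fun t => v t * s t) = avM D v := by
  rw [avM, avM]
  refine Fintype.sum_equiv (Equiv.mulLeft (fun t => (⟨s t, hs t⟩ : D))) _ _ ?_
  intro r
  congr 1
  funext t
  exact mul_assoc _ _ _

/-- the average (a multiple) of a function of tuples -/
noncomputable def avF {B : Type u} [CommRing B] (D : Subgroup G) [Fintype D]
    (Φ : (Fin (n + 2) → Fin q → G) → B) (v : Fin (n + 2) → Fin q → G) : B :=
  Finsupp.linearCombination ℤ Φ (tens (avM D) (n + 1) v)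

theorem avF_rinv {B : Type u} [CommRing B] (D : Subgroup G) [Fintype D]
    (Φ : (Fin (n + 2) → Fin q → G) → B) : RInv D (avF D Φ) := by
  intro s hs v
  rw [avF, avF]
  congr 1
  exact tens_congr fun j => avM_mul D (v j) (s j) (hs j)

theorem avF_isInv {B : Type u} [CommRing B] (D : Subgroup G) [Fintype D] {c : G}
    {Φ : (Fin (n + 2) → Fin q → G) → B} (hΦ : IsInv c Φ) : IsInv c (avF D Φ) where
  inv g hg v := by
    rw [avF, avF, tens_congr (x' := v) (A' := fun w => (avM D w).mapDomain (lmul g))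
      (fun j => (avM_mapDomain_lmul D g (v j)).symm), tens_mapDomain, lc_push]
    congr 2
    funext x
    exact hΦ.inv g hg x
  rot v := by
    rw [avF, avF, tens_congr (x' := v) (A' := fun w => (avM D w).mapDomain (sig q c))
      (fun j => (avM_mapDomain_sig D c (v j)).symm), tens_mapDomain, lc_push]
    congr 2
    funext x
    exact hΦ.rot x

theorem avF_eq {B : Type u} [CommRing B] (D : Subgroup G) [Fintype D] {c : G}
    {Φ : (Fin (n + 2) → Fin q → G) → B} (hΦ : IsPhi c Φ) :
    ∃ Ψ : (Fin (n + 1) → Fin q → G) → B, IsInv c Ψ ∧ ∀ v, avF D Φ v =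
      ((Fintype.card (Fin q → D) : ℤ) ^ (n + 2)) • Φ v +
        ∑ i : Fin (n + 2), (-1 : ℤ) ^ (i : ℕ) • Ψ (fun j => v (i.succAbove j)) := by
  obtain ⟨H, h1, h2⟩ := exists_homotopy (R := ℤ) (avM D (q := q))
    (fun v : Fin q → G => Finsupp.single v (Fintype.card (Fin q → D) : ℤ))
    (Fintype.card (Fin q → D) : ℤ) (mass_avM D) (fun v => mass_single' _ _) (fun v => v)
  refine ⟨fun w => (Fintype.card (Fin q → D) : ℤ) •
    Finsupp.linearCombination ℤ Φ (H n (Finsupp.single w 1)), ⟨?_, ?_⟩, ?_⟩
  · intro g hg w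
    have e := h2 (lmul g) (lmul g) (avM_mapDomain_lmul D g)
      (fun v => Finsupp.mapDomain_single) (fun v => rfl) n (Finsupp.single w 1)
    rw [push_single] at e
    show _ • _ = _ • _
    rw [e, lc_push]
    congr 3
    funext x
    exact hΦ.inv g hg x
  · intro w
    have e := h2 (sig q c) (sig q c) (avM_mapDomain_sig D c)
      (fun v => Finsupp.mapDomain_single) (fun v => rfl) n (Finsupp.single w 1)
    rw [push_single] at e
    show _ • _ = _ • _
    rw [e, lc_push]
    congr 3
    funext x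
    exact hΦ.rot x
  · intro v
    have e := congrArg (Finsupp.linearCombination ℤ Φ) (h1 n (Finsupp.single v 1))
    rw [map_add, lc_bd_zero hΦ.coc, zero_add, map_sub, vmap_single, vmap_single,
      tens_smul_point (Fintype.card (Fin q → D) : ℤ) (fun w : Fin q → G => w), map_smul,
      map_smul, Finsupp.linearCombination_single, one_smul] at e
    have e1 : ∑ i : Fin (n + 2), (-1 : ℤ) ^ (i : ℕ) • ((Fintype.card (Fin q → D) : ℤ) •
        Finsupp.linearCombination ℤ Φ (H n (Finsupp.single (fun j => v (i.succAbove j)) 1))) =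
        (Fintype.card (Fin q → D) : ℤ) • Finsupp.linearCombination ℤ Φ
          (H n (bd ℤ _ n (Finsupp.single v 1))) := by
      rw [bd_single, map_sum, map_sum, Finset.smul_sum]
      refine Finset.sum_congr rfl fun i _ => ?_
      rw [map_smul, map_smul, smul_comm]
    rw [e1, e, avF]
    abel

theorem isPhi_avF {B : Type u} [CommRing B] (D : Subgroup G) [Fintype D] {c : G}
    {Φ : (Fin (n + 2) → Fin q → G) → B} (hΦ : IsPhi c Φ) : IsPhi c (avF D Φ) where
  toIsInv := avF_isInv D hΦ.toIsInv
  coc v := by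
    obtain ⟨Ψ, -, h⟩ := avF_eq D hΦ
    have e1 : ∀ x : Fin (n + 2) → Fin q → G, avF D Φ x =
        ((Fintype.card (Fin q → D) : ℤ) ^ (n + 2)) • Φ x +
          Finsupp.linearCombination ℤ Ψ (bd ℤ _ n (Finsupp.single x 1)) := by
      intro x
      rw [h x, lc_bd_single]
    simp only [e1, smul_add]
    rw [Finset.sum_add_distrib]
    have e2 : ∑ i : Fin (n + 3), (-1 : ℤ) ^ (i : ℕ) •
        ((Fintype.card (Fin q → D) : ℤ) ^ (n + 2)) • Φ (fun j => v (i.succAbove j)) = 0 := by
      rw [← smul_zero ((Fintype.card (Fin q → D) : ℤ) ^ (n + 2)), ← hΦ.coc v, Finset.smul_sum]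
      exact Finset.sum_congr rfl fun i _ => smul_comm _ _ _
    have e3 : ∑ i : Fin (n + 3), (-1 : ℤ) ^ (i : ℕ) • Finsupp.linearCombination ℤ Ψ
        (bd ℤ _ n (Finsupp.single (fun j => v (i.succAbove j)) 1)) =
        Finsupp.linearCombination ℤ Ψ (bd ℤ _ n (bd ℤ _ (n + 1) (Finsupp.single v 1))) := by
      rw [bd_single, map_sum, map_sum]
      refine Finset.sum_congr rfl fun i _ => ?_
      rw [map_smul, map_smul]
    rw [e2, e3, bd_bd, map_zero, add_zero]

end

section

end

end Pool.Agent.H71.FQ
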